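import Pool.Agent.Helper8.HX.Defs

/-!
Piece K6 (`exists_inv`): the inverse section.
-/

set_option autoImplicit false

open scoped Manifold ContDiff
open MeasureTheory

namespace Pool.Agent.Helper76.HX

open Pool.Agent.Helper8.DC Pool.Agent.Helper8.DA Pool.Agent.Helper8.DE Pool.Agent.Helper8.HX

noncomputable section

theorem det_ne_zero_of_posM (N : Fin 3 → Fin 3 → ℝ) (hN : PosM N) : (Matrix.of N).det ≠ 0 := by
  intro h
  obtain ⟨v, hv, h0⟩ := Matrix.exists_mulVec_eq_zero_iff.mpr h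
  have h1 := hN v hv
  have h2 : ∑ a, ∑ b, v a * N a b * v b = dotProduct v ((Matrix.of N).mulVec v) := by
    simp only [dotProduct, Matrix.mulVec, Finset.mul_sum, mul_assoc, Matrix.of_apply]
  rw [h2, h0, dotProduct_zero] at h1
  exact lt_irrefl _ h1

/-- The inverse matrix as a family of vectors. -/
def inv3 (N : Fin 3 → R3) : Fin 3 → R3 := fun r a => (Matrix.of N)⁻¹ r a

theorem of_inv3 (N : Fin 3 → R3) : Matrix.of (inv3 N) = (Matrix.of N)⁻¹ := by
  ext r a
  rfl

theorem inv3_smooth {U : Set E4} {ρ : E4 → Fin 3 → R3} (hρ : ContDiffOn ℝ ∞ ρ U)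
    (hd : ∀ y ∈ U, (Matrix.of (ρ y)).det ≠ 0) : ContDiffOn ℝ ∞ (fun y => inv3 (ρ y)) U := by
  have he : ∀ r a, ContDiffOn ℝ ∞ (fun y => ρ y r a) U := fun r a =>
    contDiffOn_pi.mp (contDiffOn_pi.mp hρ r) a
  have hdet : ContDiffOn ℝ ∞ (fun y => (Matrix.of (ρ y)).det) U := by
    simp only [Matrix.det_fin_three, Matrix.of_apply]
    have h := he
    exact ((((((h 0 0).mul (h 1 1)).mul (h 2 2)).sub (((h 0 0).mul (h 1 2)).mul (h 2 1))).sub
      (((h 0 1).mul (h 1 0)).mul (h 2 2))).add (((h 0 1).mul (h 1 2)).mul (h 2 0))).add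
      (((h 0 2).mul (h 1 0)).mul (h 2 1)) |>.sub (((h 0 2).mul (h 1 1)).mul (h 2 0))
  refine contDiffOn_pi.mpr fun r => contDiffOn_pi.mpr fun a => ?_
  have hadj : ContDiffOn ℝ ∞ (fun y => (Matrix.of (ρ y)).adjugate r a) U := by
    simp only [Matrix.adjugate_fin_three]
    have h := he
    fin_cases r <;> fin_cases a <;> simp <;>
      first
        | exact ((h _ _).mul (h _ _)).sub ((h _ _).mul (h _ _))
        | exact (((h _ _).mul (h _ _)).neg).add ((h _ _).mul (h _ _))
  have hinv : ∀ y, inv3 (ρ y) r a =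
      ((Matrix.of (ρ y)).det)⁻¹ * (Matrix.of (ρ y)).adjugate r a := by
    intro y
    unfold inv3
    rw [Matrix.inv_def, Ring.inverse_eq_inv', Matrix.smul_apply, smul_eq_mul]
  simp only [hinv]
  exact (hdet.inv hd).mul hadj

/-- The compatibility as a matrix identity. -/
theorem compat_mat {X : Type} [TopologicalSpace X] [ChartedSpace E4 X] [IsManifold (𝓡 4) ∞ X]
    (P : Bundle X) (i j : P.ι) (y : E4) (ρi ρj : Fin 3 → R3) :
    (∀ r, ρi r = ∑ t, (adj P).h i j y r t • (P.g i j y).mulVec (ρj t)) ↔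
      Matrix.of ρi = P.g i j y * Matrix.of ρj * (P.g i j y).transpose := by
  have h1 : ∀ r a, (∑ t, (adj P).h i j y r t • (P.g i j y).mulVec (ρj t)) a =
      (P.g i j y * Matrix.of ρj * (P.g i j y).transpose) r a := by
    intro r a
    show (∑ t, P.g i j y r t • (P.g i j y).mulVec (ρj t)) a = _
    rw [Finset.sum_apply]
    simp only [Pi.smul_apply, smul_eq_mul, Matrix.mulVec, dotProduct, Matrix.mul_apply,
      Matrix.transpose_apply, Matrix.of_apply, Fin.sum_univ_three]
    ring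
  constructor
  · intro h
    ext r a
    rw [← h1 r a, ← h r]
    rfl
  · intro h r
    funext a
    rw [h1 r a, ← h]
    rfl

variable {X : Type} [TopologicalSpace X] [ChartedSpace E4 X] [IsManifold (𝓡 4) ∞ X]

/-- K6: the inverse section. -/
theorem exists_inv (P : Bundle X) (ρ : Sect P (adj P)) (hs : IsSymm P ρ)
    (hpos : ∀ i, ∀ y ∈ (P.c i).target, PosM (ρ.s i y)) :
    ∃ Ψ : Sect P (adj P), IsSymm P Ψ ∧ ∀ i, ∀ y ∈ (P.c i).target,
      Matrix.of (Ψ.s i y) * Matrix.of (ρ.s i y) = 1 := by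
  have hdet : ∀ i, ∀ y ∈ (P.c i).target, (Matrix.of (ρ.s i y)).det ≠ 0 := fun i y hy =>
    det_ne_zero_of_posM _ (hpos i y hy)
  refine ⟨⟨fun i y => inv3 (ρ.s i y), fun i => inv3_smooth (ρ.smooth i) (hdet i), ?_⟩, ?_, ?_⟩
  · intro i j y hy
    have h1 := (compat_mat P i j y _ _).mp (ρ.compat i j y hy)
    refine (compat_mat P i j y _ _).mpr ?_
    have hg := (Matrix.mem_specialOrthogonalGroup_iff.mp (P.g_mem i j y hy)).1
    have hg1 : (P.g i j y).transpose * P.g i j y = 1 := by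
      rw [Matrix.mem_orthogonalGroup_iff'] at hg
      simpa [Matrix.star_eq_conjTranspose] using hg
    have hg2 : P.g i j y * (P.g i j y).transpose = 1 := mul_eq_one_comm.mp hg1
    rw [of_inv3, of_inv3, h1]
    refine Matrix.inv_eq_left_inv ?_
    have hu : IsUnit (Matrix.of (ρ.s j y)).det := (hdet j y hy.1).isUnit
    calc P.g i j y * (Matrix.of (ρ.s j y))⁻¹ * (P.g i j y).transpose *
          (P.g i j y * Matrix.of (ρ.s j y) * (P.g i j y).transpose) =
        P.g i j y * ((Matrix.of (ρ.s j y))⁻¹ * ((P.g i j y).transpose * P.g i j y) *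
          Matrix.of (ρ.s j y)) * (P.g i j y).transpose := by simp only [Matrix.mul_assoc]
      _ = 1 := by
          rw [hg1, Matrix.mul_one, Matrix.nonsing_inv_mul _ hu, Matrix.mul_one, hg2]
  · intro i y hy r a
    have h1 : (Matrix.of (ρ.s i y)).transpose = Matrix.of (ρ.s i y) := by
      ext r a
      exact hs i y hy a r
    have h2 : ((Matrix.of (ρ.s i y))⁻¹).transpose = (Matrix.of (ρ.s i y))⁻¹ := by
      rw [Matrix.transpose_nonsing_inv, h1]
    exact congrFun (congrFun h2 a) r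
  · intro i y hy
    show Matrix.of (inv3 (ρ.s i y)) * _ = 1
    rw [of_inv3]
    exact Matrix.nonsing_inv_mul _ (hdet i y hy).isUnit

end

end Pool.Agent.Helper76.HX
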