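import Pool.Agent.Helper8.HX.Defs

/-!
Piece K8 (`pos_of_symm_mul`).
-/

set_option autoImplicit false

open scoped Manifold ContDiff
open MeasureTheory

namespace Pool.Agent.Helper76.HX

open Pool.Agent.Helper8.DC Pool.Agent.Helper8.DA Pool.Agent.Helper8.DE Pool.Agent.Helper8.HX

noncomputable section

/-- The quadratic form as a dot product. -/
theorem form_eq (N : Fin 3 → Fin 3 → ℝ) (v : R3) :
    ∑ a, ∑ b, v a * N a b * v b = dotProduct v ((Matrix.of N).mulVec v) := by
  simp only [dotProduct, Matrix.mulVec, Finset.mul_sum, mul_assoc, Matrix.of_apply]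

/-- Rotation of the quadratic form. -/
theorem form_rot (Q N : Matrix (Fin 3) (Fin 3) ℝ) (v : R3) :
    dotProduct v ((Q * N * Q.transpose).mulVec v) =
      dotProduct (Q.transpose.mulVec v) (N.mulVec (Q.transpose.mulVec v)) := by
  rw [← Matrix.mulVec_mulVec, ← Matrix.mulVec_mulVec, Matrix.dotProduct_mulVec,
    Matrix.mulVec_transpose]

theorem posM_rot (Q N : Matrix (Fin 3) (Fin 3) ℝ) (hQ : Q * Q.transpose = 1) (hN : PosM N) :
    PosM (Q * N * Q.transpose) := by
  intro v hv
  refine lt_of_lt_of_eq ?_ (form_eq (Q * N * Q.transpose) v).symm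
  change 0 < dotProduct v ((Q * N * Q.transpose).mulVec v)
  rw [form_rot]
  have h0 : Q.transpose.mulVec v ≠ 0 := by
    intro h
    apply hv
    have h1 : Q.mulVec (Q.transpose.mulVec v) = 0 := by rw [h, Matrix.mulVec_zero]
    rwa [Matrix.mulVec_mulVec, hQ, Matrix.one_mulVec] at h1
  exact lt_of_lt_of_eq (hN _ h0) (form_eq N (Q.transpose.mulVec v))

/-- K8 -/
theorem pos_of_symm_mul (M R : Matrix (Fin 3) (Fin 3) ℝ) (hM : M.transpose = M)
    (hR : R.transpose = R) (hMp : PosM M) (hRp : PosM R) (hMR : (M * R).transpose = M * R) :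
    PosM (M * R) := by
  obtain ⟨Q, hQ, hd⟩ := rot_diag M hM
  have hQ1 : Q.transpose * Q = 1 := by
    have := (Matrix.mem_specialOrthogonalGroup_iff.mp hQ).1
    rw [Matrix.mem_orthogonalGroup_iff'] at this
    simpa [Matrix.star_eq_conjTranspose] using this
  have hQ2 : Q * Q.transpose = 1 := mul_eq_one_comm.mp hQ1
  have hDp : PosM (Q * M * Q.transpose) := posM_rot Q M hQ2 hMp
  have hRp' : PosM (Q * R * Q.transpose) := posM_rot Q R hQ2 hRp
  have hprod : Q * (M * R) * Q.transpose = (Q * M * Q.transpose) * (Q * R * Q.transpose) := by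
    calc Q * (M * R) * Q.transpose = Q * M * (1 : Matrix (Fin 3) (Fin 3) ℝ) * R * Q.transpose := by
          rw [Matrix.mul_one, Matrix.mul_assoc Q M R]
      _ = _ := by
          rw [← hQ1]
          simp only [Matrix.mul_assoc]
  have hsym : (Q * (M * R) * Q.transpose).transpose = Q * (M * R) * Q.transpose := by
    rw [Matrix.transpose_mul, Matrix.transpose_mul, Matrix.transpose_transpose, hMR,
      ← Matrix.mul_assoc]
  have hRs : (Q * R * Q.transpose).transpose = Q * R * Q.transpose := by
    rw [Matrix.transpose_mul, Matrix.transpose_mul, Matrix.transpose_transpose, hR,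
      ← Matrix.mul_assoc]
  set D := Q * M * Q.transpose with hD
  set S := Q * R * Q.transpose with hS
  have hDa : ∀ a, 0 < D a a := by
    intro a
    have h := hDp (Pi.single a 1) (by
      intro h
      have := congrFun h a
      simp at this)
    simpa [Pi.single_apply, Fin.sum_univ_three] using h
  have hDS : ∀ a b, (D * S) a b = D a a * S a b := by
    intro a b
    rw [Matrix.mul_apply, Finset.sum_eq_single a]
    · intro c _ hc
      rw [hd a c (Ne.symm hc), zero_mul]
    · intro h
      exact absurd (Finset.mem_univ a) h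
  have hSs : ∀ a b, S a b = S b a := fun a b => congrFun (congrFun hRs b) a
  have hkey : ∀ a b, D a a * S a b = Real.sqrt (D a a) * Real.sqrt (D b b) * S a b := by
    intro a b
    have h1 : D a a * S a b = D b b * S a b := by
      have h2 := congrFun (congrFun hsym b) a
      rw [Matrix.transpose_apply, hprod, hDS, hDS] at h2
      rw [h2, hSs a b]
    by_cases h0 : S a b = 0
    · rw [h0, mul_zero, mul_zero]
    · have h2 : D a a = D b b := mul_right_cancel₀ h0 h1
      rw [← h2, Real.mul_self_sqrt (hDa a).le]
  have hDSp : PosM (D * S) := by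
    intro v hv
    have h1 := hRp' (fun a => Real.sqrt (D a a) * v a) (by
      intro h
      apply hv
      funext a
      have h2 := congrFun h a
      simp only [Pi.zero_apply] at h2 ⊢
      rcases mul_eq_zero.mp h2 with h3 | h3
      · exact absurd h3 (Real.sqrt_pos.mpr (hDa a)).ne'
      · exact h3)
    refine lt_of_lt_of_eq h1 ?_
    refine Finset.sum_congr rfl fun a _ => Finset.sum_congr rfl fun b _ => ?_
    change _ = v a * (D * S) a b * v b
    rw [hDS, hkey a b]
    ring
  have hback : M * R = Q.transpose * (D * S) * Q.transpose.transpose := by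
    rw [← hprod, Matrix.transpose_transpose]
    calc M * R = (Q.transpose * Q) * (M * R) * (Q.transpose * Q) := by
          rw [hQ1, Matrix.one_mul, Matrix.mul_one]
      _ = _ := by simp only [Matrix.mul_assoc]
  rw [hback]
  exact posM_rot Q.transpose (D * S) (by rw [Matrix.transpose_transpose]; exact hQ1) hDSp

end

end Pool.Agent.Helper76.HX
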