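import Pool.Agent.Helper8.HX.Defs

/-!
Piece K10a (`sym_nonneg_T`), a copy of helper98's `sym_nonneg_of`.
-/

set_option autoImplicit false

open scoped Manifold ContDiff
open MeasureTheory

namespace Pool.Agent.Helper76.HX

open Pool.Agent.Helper8.DC Pool.Agent.Helper8.DA Pool.Agent.Helper8.DE Pool.Agent.Helper8.HX

noncomputable section

/-- K10a: `Helper98.DE.sym_nonneg_of` (with `sym_diag`), where `PosDef T` is only used through
`gram_pos` and `urb_neg`. -/
theorem sym_nonneg_T (T : Fin 4 → Fin 4 → R3) (hs : Skew T) (hg : PosM (gram T))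
    (hu : ∀ u : Fin 4 → ℝ, quad (fun m a => val T u (Pi.single m 1) a) T ≤ 0)
    (hpin : WeakPinched T) (c : Fin 3 → Fin 4 → R3) (hsym : ∀ r m a, c r m a = c a m r)
    (hc : ∀ r, Constr (c r) T) : 0 ≤ ∑ r, quad (c r) T := by
  obtain ⟨R, hR, hdiag⟩ := rot_diag (gram T) (gram_symm T)
  have hR1 : R.transpose * R = 1 := by
    have := (Matrix.mem_specialOrthogonalGroup_iff.mp hR).1
    rw [Matrix.mem_orthogonalGroup_iff'] at this
    simpa [Matrix.star_eq_conjTranspose] using this
  have hR2 : R * R.transpose = 1 := mul_eq_one_comm.mp hR1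
  have e : ∀ a b, ∑ r, R r a * R r b = if a = b then 1 else 0 := by
    intro a b
    have := congrFun (congrFun hR1 a) b
    simpa [Matrix.mul_apply, Matrix.one_apply] using this
  set T1 : Fin 4 → Fin 4 → R3 := fun l m => R.mulVec (T l m) with hTr
  have hgr : gram T1 = R * gram T * R.transpose := gram_rot R T
  have hs' : Skew T1 := by
    intro l m
    simp only [hTr]
    rw [hs l m, Matrix.mulVec_neg]
  have htr : (gram T1).trace = (gram T).trace := by
    rw [hgr, Matrix.trace_mul_comm, ← Matrix.mul_assoc, hR1, Matrix.one_mul]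
  have hdR : R.det * R.transpose.det = 1 := by
    rw [← Matrix.det_mul, hR2, Matrix.det_one]
  have hconj : ∀ N : Matrix (Fin 3) (Fin 3) ℝ, (R * N * R.transpose).det = N.det := by
    intro N
    rw [Matrix.det_mul, Matrix.det_mul]
    calc R.det * N.det * R.transpose.det = R.det * R.transpose.det * N.det := by ring
      _ = N.det := by rw [hdR, one_mul]
  have hpos : ∀ a, 0 < gram T1 a a := by
    intro a
    have hrow : (fun b => R a b) ≠ 0 := by
      intro h0
      have := congrFun (congrFun hR2 a) a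
      simp only [Matrix.mul_apply, Matrix.transpose_apply, Matrix.one_apply_eq] at this
      have h1 : ∀ b, R a b = 0 := fun b => congrFun h0 b
      simp [h1] at this
    have := hg (fun b => R a b) hrow
    rw [hgr]
    simp only [Matrix.mul_apply, Matrix.transpose_apply]
    refine lt_of_lt_of_eq this ?_
    rw [Finset.sum_comm]
    refine Finset.sum_congr rfl fun b _ => ?_
    rw [Finset.sum_mul]
  have hoff : ∀ a b, a ≠ b → gram T1 a b = 0 := by
    intro a b hab
    rw [hgr]
    exact hdiag a b hab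
  have hU : ∀ u : Fin 4 → ℝ, quad (fun m a => val T1 u (Pi.single m 1) a) T1 ≤ 0 := by
    intro u
    have h1 : (fun (m : Fin 4) (a : Fin 3) => val T1 u (Pi.single m 1) a) =
        fun m => R.mulVec (fun a => val T u (Pi.single m 1) a) := by
      funext m
      exact val_rot R T u (Pi.single m 1)
    rw [h1, hTr, quad_rot R hR]
    exact hu u
  have hp2 : 0 ≤ (gram T1 1 1 + gram T1 2 2 - gram T1 0 0) *
      (gram T1 0 0 + gram T1 2 2 - gram T1 1 1) * (gram T1 0 0 + gram T1 1 1 - gram T1 2 2) +
        24 * (gram T1 0 0 * gram T1 1 1 * gram T1 2 2) := by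
    have h := hpin
    unfold WeakPinched at h
    have h1 : ((gram T).trace • (1 : Matrix (Fin 3) (Fin 3) ℝ) - (2 : ℝ) • gram T).det =
        ((gram T1).trace • (1 : Matrix (Fin 3) (Fin 3) ℝ) - (2 : ℝ) • gram T1).det := by
      rw [← hconj ((gram T).trace • (1 : Matrix (Fin 3) (Fin 3) ℝ) - (2 : ℝ) • gram T), htr, hgr]
      congr 1
      rw [Matrix.mul_sub, Matrix.sub_mul, Matrix.mul_smul, Matrix.smul_mul, Matrix.mul_one, hR2,
        Matrix.mul_smul, Matrix.smul_mul]
    have h2 : (gram T).det = (gram T1).det := by rw [hgr, hconj]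
    rw [h1, h2, Matrix.det_fin_three, Matrix.det_fin_three] at h
    simp only [Matrix.trace, Matrix.diag, Fin.sum_univ_three, Matrix.sub_apply, Matrix.smul_apply,
      smul_eq_mul, Matrix.one_apply_eq] at h
    rw [hoff 0 1 (by decide), hoff 0 2 (by decide), hoff 1 2 (by decide), hoff 1 0 (by decide),
      hoff 2 0 (by decide), hoff 2 1 (by decide), Matrix.one_apply_ne (by decide : (0 : Fin 3) ≠ 1),
      Matrix.one_apply_ne (by decide : (0 : Fin 3) ≠ 2),
      Matrix.one_apply_ne (by decide : (1 : Fin 3) ≠ 2),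
      Matrix.one_apply_ne (by decide : (1 : Fin 3) ≠ 0),
      Matrix.one_apply_ne (by decide : (2 : Fin 3) ≠ 0),
      Matrix.one_apply_ne (by decide : (2 : Fin 3) ≠ 1)] at h
    refine h.trans_eq ?_
    ring
  -- the rotated section
  let b : Fin 3 → Fin 4 → R3 := fun t m => R.mulVec (c t m)
  have h1 := Pool.Agent.Helper8.DE.sym_diag T1 hs' (hoff 0 1 (by decide)) (hoff 0 2 (by decide)) (hoff 1 2 (by decide))
    hpos hU hp2 (fun r m => ∑ t, R r t • b t m) (by
      intro r m a
      simp only [b, Finset.sum_apply, Pi.smul_apply, smul_eq_mul, Matrix.mulVec, dotProduct,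
        Finset.mul_sum]
      rw [Finset.sum_comm]
      refine Finset.sum_congr rfl fun u _ => Finset.sum_congr rfl fun t _ => ?_
      rw [hsym t m u]
      ring)
    (fun r => Pool.Agent.Helper98.DE.constr_comb (fun t => R r t) b T1 fun t => constr_rot R hR (c t) T (hc t))
  have h2 : ∑ r, quad (fun m => ∑ t, R r t • b t m) T1 = ∑ r, quad (c r) T := by
    have h3 : ∀ r, quad (fun m => ∑ t, R r t • b t m) T1 =
        ∑ t, ∑ u, (R r t * R r u) * Pool.Agent.Helper98.DE.pol (b t) (b u) T1 := fun r => Pool.Agent.Helper98.DE.quad_comb _ b T1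
    rw [Finset.sum_congr rfl fun r _ => h3 r, Finset.sum_comm]
    refine Finset.sum_congr rfl fun t _ => ?_
    rw [Finset.sum_comm]
    have h4 : ∀ u, ∑ r, (R r t * R r u) * Pool.Agent.Helper98.DE.pol (b t) (b u) T1 =
        (if t = u then 1 else 0) * Pool.Agent.Helper98.DE.pol (b t) (b u) T1 := by
      intro u
      rw [← Finset.sum_mul, e]
    rw [Finset.sum_congr rfl fun u _ => h4 u]
    simp only [ite_mul, one_mul, zero_mul, Finset.sum_ite_eq, Finset.mem_univ, if_true]
    exact quad_rot R hR (c t) T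
  rwa [h2] at h1

end

end Pool.Agent.Helper76.HX
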